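import Mathlib
import Pool.Agent.H815.QC.Stm

set_option autoImplicit false

namespace Pool.Agent.H718.QCD2

open Pool.Agent.H815.QC

section Half

variable {Ω : Type*} [Fintype Ω]

/-- antisymmetric functions -/
def Yneg (σ : Ω → Ω) : Submodule ℚ (Ω → ℚ) where
  carrier := {y | ∀ ω, y (σ ω) = - y ω}
  add_mem' := by
    intro a b ha hb ω
    simp only [Pi.add_apply, ha ω, hb ω]; ring
  zero_mem' := by intro ω; simp
  smul_mem' := by
    intro c a ha ω
    simp only [Pi.smul_apply, ha ω, smul_eq_mul]; ring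

/-- symmetric functions -/
def Ypos (σ : Ω → Ω) : Submodule ℚ (Ω → ℚ) where
  carrier := {y | ∀ ω, y (σ ω) = y ω}
  add_mem' := by
    intro a b ha hb ω
    simp only [Pi.add_apply, ha ω, hb ω]
  zero_mem' := by intro ω; simp
  smul_mem' := by
    intro c a ha ω
    simp only [Pi.smul_apply, ha ω, smul_eq_mul]

/-- a sign function -/
theorem exists_eps (σ : Ω → Ω) (hσ : ∀ ω, σ (σ ω) = ω) (hf : ∀ ω, σ ω ≠ ω) :
    ∃ ε : Ω → ℚ, (∀ ω, ε ω * ε ω = 1) ∧ ∀ ω, ε (σ ω) = - ε ω := by
  classical
  let e := Fintype.equivFin Ω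
  refine ⟨fun ω => if e ω < e (σ ω) then 1 else -1, ?_, ?_⟩
  · intro ω
    by_cases h : e ω < e (σ ω) <;> simp [h]
  · intro ω
    have hne : e ω ≠ e (σ ω) := fun h => hf ω (e.injective h).symm
    by_cases h : e ω < e (σ ω)
    · have h' : ¬ e (σ ω) < e ω := not_lt.2 h.le
      simp [h, h', hσ ω]
    · have h' : e (σ ω) < e ω := lt_of_le_of_ne (not_lt.1 h) (Ne.symm hne)
      simp [h, h', hσ ω]

theorem finrank_Yneg (σ : Ω → Ω) (hσ : ∀ ω, σ (σ ω) = ω) (hf : ∀ ω, σ ω ≠ ω) :
    2 * Module.finrank ℚ (Yneg σ) = Fintype.card Ω := by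
  classical
  obtain ⟨ε, hε, hεσ⟩ := exists_eps σ hσ hf
  let A : (Ω → ℚ) →ₗ[ℚ] (Ω → ℚ) := LinearMap.id - LinearMap.funLeft ℚ ℚ σ
  have hA : ∀ y ω, A y ω = y ω - y (σ ω) := fun y ω => rfl
  have hrange : LinearMap.range A = Yneg σ := by
    ext y
    constructor
    · rintro ⟨z, rfl⟩ ω
      rw [hA, hA, hσ]; ring
    · intro hy
      refine ⟨(1 / 2 : ℚ) • y, ?_⟩
      funext ω
      rw [hA]
      simp only [Pi.smul_apply, smul_eq_mul]
      rw [hy ω]; ring
  have hker : LinearMap.ker A = Ypos σ := by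
    ext y
    rw [LinearMap.mem_ker]
    constructor
    · intro h ω
      have := congrFun h ω
      rw [hA] at this
      simp only [Pi.zero_apply] at this
      linarith
    · intro h
      funext ω
      rw [hA, h ω]
      simp
  have h1 := LinearMap.finrank_range_add_finrank_ker A
  rw [hrange, hker, Module.finrank_fintype_fun_eq_card] at h1
  have h2 : Module.finrank ℚ (Ypos σ) = Module.finrank ℚ (Yneg σ) := by
    apply LinearEquiv.finrank_eq
    refine LinearEquiv.ofLinearMap
      (LinearMap.codRestrict (Yneg σ) (LinearMap.comp (LinearMap.pi fun ω => ε ω • LinearMap.proj ω)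
        (Ypos σ).subtype) ?_)
      (LinearMap.codRestrict (Ypos σ) (LinearMap.comp (LinearMap.pi fun ω => ε ω • LinearMap.proj ω)
        (Yneg σ).subtype) ?_) ?_ ?_
    · intro y ω
      have := y.2 ω
      simp only [LinearMap.comp_apply, LinearMap.pi_apply, LinearMap.smul_apply, LinearMap.proj_apply,
        Submodule.subtype_apply, smul_eq_mul]
      rw [this, hεσ]; ring
    · intro y ω
      have := y.2 ω
      simp only [LinearMap.comp_apply, LinearMap.pi_apply, LinearMap.smul_apply, LinearMap.proj_apply,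
        Submodule.subtype_apply, smul_eq_mul]
      rw [this, hεσ]; ring
    · apply LinearMap.ext
      intro y
      apply Subtype.ext
      funext ω
      change ε ω * (ε ω * y.1 ω) = y.1 ω
      rw [← mul_assoc, hε, one_mul]
    · apply LinearMap.ext
      intro y
      apply Subtype.ext
      funext ω
      change ε ω * (ε ω * y.1 ω) = y.1 ω
      rw [← mul_assoc, hε, one_mul]
  omega

end Half

section EE

variable {G : Type} [Group G] (M : Subgroup G)

/-- functions with `φ (g m) = φ g + φ m - φ 1` -/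
def EE : Submodule ℚ (G → ℚ) where
  carrier := {φ | ∀ g, ∀ m ∈ M, φ (g * m) = φ g + φ m - φ 1}
  add_mem' := by
    intro a b ha hb g m hm
    simp only [Pi.add_apply, ha g m hm, hb g m hm]; ring
  zero_mem' := by intro g m _; simp
  smul_mem' := by
    intro c a ha g m hm
    simp only [Pi.smul_apply, ha g m hm, smul_eq_mul]; ring

theorem EE_mem (φ : EE M) (g m : G) (hm : m ∈ M) : φ.1 (g * m) = φ.1 g + φ.1 m - φ.1 1 := φ.2 g m hm

/-- the homomorphism of `M` -/
def res (φ : EE M) : Additive M →+ ℚ where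
  toFun m := φ.1 (m.toMul : M) - φ.1 1
  map_zero' := by simp
  map_add' := by
    intro a b
    have := EE_mem M φ (a.toMul : M) (b.toMul : M) (b.toMul : M).2
    rw [toMul_add, Subgroup.coe_mul, this]; ring

/-- the first linear map -/
noncomputable def R1 : EE M →ₗ[ℚ] (G ⧸ M → ℚ) × (Additive M →+ ℚ) where
  toFun φ := (fun ω => φ.1 ω.out, res M φ)
  map_add' := by
    intro a b
    apply Prod.ext
    · rfl
    · apply AddMonoidHom.ext
      intro m
      change (a.1 + b.1) _ - (a.1 + b.1) 1 = (a.1 _ - a.1 1) + (b.1 _ - b.1 1)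
      simp only [Pi.add_apply]; ring
  map_smul' := by
    intro c a
    apply Prod.ext
    · rfl
    · apply AddMonoidHom.ext
      intro m
      change (c • a.1) _ - (c • a.1) 1 = c * (a.1 _ - a.1 1)
      simp only [Pi.smul_apply, smul_eq_mul]; ring

theorem out_dec (g : G) : ∃ m ∈ M, g = (QuotientGroup.mk g : G ⧸ M).out * m := by
  refine ⟨(QuotientGroup.mk g : G ⧸ M).out⁻¹ * g, ?_, by group⟩
  rw [← QuotientGroup.eq]
  exact Quotient.out_eq _

theorem R1_bij : Function.Bijective (R1 M) := by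
  constructor
  · rw [← LinearMap.ker_eq_bot, LinearMap.ker_eq_bot']
    intro φ h
    have h1 : ∀ ω : G ⧸ M, φ.1 ω.out = 0 := fun ω => congrFun (congrArg Prod.fst h) ω
    have h2 : ∀ m ∈ M, φ.1 m - φ.1 1 = 0 := fun m hm =>
      DFunLike.congr_fun (congrArg Prod.snd h) (Additive.ofMul (⟨m, hm⟩ : M))
    apply Subtype.ext
    funext g
    obtain ⟨m, hm, hg⟩ := out_dec M g
    have h3 := EE_mem M φ (QuotientGroup.mk g : G ⧸ M).out m hm
    rw [← hg] at h3
    have h4 := h1 (QuotientGroup.mk g)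
    have h5 := h2 m hm
    change φ.1 g = 0
    linarith
  · rintro ⟨f, ψ⟩
    have hmem : ∀ g : G, (QuotientGroup.mk g : G ⧸ M).out⁻¹ * g ∈ M := by
      intro g
      rw [← QuotientGroup.eq]
      exact Quotient.out_eq _
    let φ : G → ℚ := fun g => f (QuotientGroup.mk g) +
      ψ (Additive.ofMul (⟨(QuotientGroup.mk g : G ⧸ M).out⁻¹ * g, hmem g⟩ : M))
    have key : ∀ g, ∀ m (hm : m ∈ M), φ (g * m) = φ g + ψ (Additive.ofMul (⟨m, hm⟩ : M)) := by
      intro g m hm
      have hq : (QuotientGroup.mk (g * m) : G ⧸ M) = QuotientGroup.mk g := by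
        rw [QuotientGroup.eq]
        rw [mul_inv_rev, mul_assoc, inv_mul_cancel, mul_one]
        exact M.inv_mem hm
      change f (QuotientGroup.mk (g * m)) + ψ (Additive.ofMul (⟨(QuotientGroup.mk (g * m) : G ⧸ M).out⁻¹ * (g * m), hmem (g * m)⟩ : M)) =
        (f (QuotientGroup.mk g) + ψ (Additive.ofMul (⟨(QuotientGroup.mk g : G ⧸ M).out⁻¹ * g, hmem g⟩ : M))) +
          ψ (Additive.ofMul (⟨m, hm⟩ : M))
      have h1 : (⟨(QuotientGroup.mk (g * m) : G ⧸ M).out⁻¹ * (g * m), hmem (g * m)⟩ : M) =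
          (⟨(QuotientGroup.mk g : G ⧸ M).out⁻¹ * g, hmem g⟩ : M) * (⟨m, hm⟩ : M) := by
        apply Subtype.ext
        change (QuotientGroup.mk (g * m) : G ⧸ M).out⁻¹ * (g * m) = (QuotientGroup.mk g : G ⧸ M).out⁻¹ * g * m
        rw [hq, mul_assoc]
      rw [h1, hq, ofMul_mul, map_add]
      ring
    have hφ : φ ∈ EE M := by
      intro g m hm
      have h1 := key g m hm
      have h2 := key 1 m hm
      rw [one_mul] at h2
      rw [h1, h2]; ring
    refine ⟨⟨φ, hφ⟩, ?_⟩
    apply Prod.ext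
    · funext ω
      change φ ω.out = f ω
      change f (QuotientGroup.mk ω.out) + ψ (Additive.ofMul (⟨(QuotientGroup.mk ω.out : G ⧸ M).out⁻¹ * ω.out, hmem ω.out⟩ : M)) = f ω
      have h0 : (QuotientGroup.mk ω.out : G ⧸ M) = ω := Quotient.out_eq _
      have h1 : (⟨(QuotientGroup.mk ω.out : G ⧸ M).out⁻¹ * ω.out, hmem ω.out⟩ : M) = 1 := by
        apply Subtype.ext
        change (QuotientGroup.mk ω.out : G ⧸ M).out⁻¹ * ω.out = 1
        rw [h0]; group
      rw [h1, h0, ofMul_one, map_zero, add_zero]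
    · apply AddMonoidHom.ext
      intro m
      change φ (m.toMul : M) - φ 1 = ψ m
      have h2 := key 1 (m.toMul : M) (m.toMul : M).2
      rw [one_mul] at h2
      rw [h2]
      change φ 1 + ψ m - φ 1 = ψ m
      ring

end EE


section Main

/-- a homomorphism from the group of order two -/
def h2 {P : Type*} [Group P] (τ : P) (hτ : τ * τ = 1) : Multiplicative (ZMod 2) →* P where
  toFun a := τ ^ (Multiplicative.toAdd a).val
  map_one' := by simp
  map_mul' a b := by
    rw [← pow_add, toAdd_mul, ZMod.val_add]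
    exact (pow_eq_pow_mod _ (by rw [pow_two]; exact hτ)).symm

/-- the group -/
abbrev GG (n : ℕ) : Type := Monoid.CoprodI fun _ : Fin n => Multiplicative (ZMod 2)

/-- the generators -/
def sg {n : ℕ} (i : Fin n) : GG n :=
  Monoid.CoprodI.of (M := fun _ : Fin n => Multiplicative (ZMod 2)) (i := i) (Multiplicative.ofAdd (1 : ZMod 2))

theorem sg_sq {n : ℕ} (i : Fin n) : sg i * sg i = 1 := by
  unfold sg
  rw [← map_mul, ← ofAdd_add]
  have : (1 : ZMod 2) + 1 = 0 := by decide
  rw [this, ofAdd_zero, map_one]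

theorem sg_ne {n : ℕ} (i : Fin n) : sg i ≠ 1 := by
  intro h
  have h1 := h.trans (map_one (Monoid.CoprodI.of (M := fun _ : Fin n => Multiplicative (ZMod 2)) (i := i))).symm
  have h2 := Monoid.CoprodI.of_injective (M := fun _ : Fin n => Multiplicative (ZMod 2)) i h1
  exact absurd h2 (by decide)

theorem two_cases (a : Multiplicative (ZMod 2)) : a = 1 ∨ a = Multiplicative.ofAdd (1 : ZMod 2) := by
  have : ∀ x : ZMod 2, x = 0 ∨ x = 1 := by decide
  exact this a.toAdd

variable {n : ℕ} (M : Subgroup (GG n))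

/-- the permutation of the cosets -/
def sp (i : Fin n) (ω : GG n ⧸ M) : GG n ⧸ M := sg i • ω

theorem sp_sq (i : Fin n) (ω : GG n ⧸ M) : sp M i (sp M i ω) = ω := by
  unfold sp
  rw [smul_smul, sg_sq, one_smul]

theorem sp_ne (hM : TFr M) (i : Fin n) (ω : GG n ⧸ M) : sp M i ω ≠ ω := by
  induction ω using QuotientGroup.induction_on with
  | H g =>
    intro h
    unfold sp at h
    rw [MulAction.Quotient.smul_mk, QuotientGroup.eq] at h
    have h1 : (sg i • g)⁻¹ * g = g⁻¹ * sg i * g := by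
      have : (sg i)⁻¹ = sg i := inv_eq_of_mul_eq_one_left (sg_sq i)
      rw [smul_eq_mul, mul_inv_rev, this]
    rw [h1] at h
    refine hM ⟨_, h⟩ ?_ 2 (by norm_num) ?_
    · intro h2
      have h3 : g⁻¹ * sg i * g = 1 := congrArg Subtype.val h2
      apply sg_ne i
      have h4 : sg i = g * (g⁻¹ * sg i * g) * g⁻¹ := by group
      rw [h4, h3]; group
    · apply Subtype.ext
      change (g⁻¹ * sg i * g) ^ 2 = 1
      rw [pow_two]
      have h4 : g⁻¹ * sg i * g * (g⁻¹ * sg i * g) = g⁻¹ * (sg i * sg i) * g := by group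
      rw [h4, sg_sq]; group

/-- the second linear map -/
noncomputable def R2 : EE M →ₗ[ℚ] ℚ × (∀ i : Fin n, Yneg (sp M i)) where
  toFun φ := (φ.1 1, fun i => ⟨fun ω => φ.1 (sg i * ω.out) - φ.1 ω.out, by
    intro ω
    have key : ∀ g : GG n, φ.1 (sg i * g) - φ.1 g =
        φ.1 (sg i * (QuotientGroup.mk g : GG n ⧸ M).out) - φ.1 (QuotientGroup.mk g : GG n ⧸ M).out := by
      intro g
      obtain ⟨m, hm, hg⟩ := out_dec M g
      have h3 := EE_mem M φ (QuotientGroup.mk g : GG n ⧸ M).out m hm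
      have h4 := EE_mem M φ (sg i * (QuotientGroup.mk g : GG n ⧸ M).out) m hm
      rw [mul_assoc, ← hg] at h4
      rw [← hg] at h3
      linarith
    have h5 : (QuotientGroup.mk (sg i * ω.out) : GG n ⧸ M) = sp M i ω := by
      unfold sp
      conv_rhs => rw [← Quotient.out_eq ω]
      rfl
    have h6 := key (sg i * ω.out)
    rw [h5, ← mul_assoc, sg_sq, one_mul] at h6
    linarith⟩)
  map_add' := by
    intro a b
    apply Prod.ext
    · rfl
    · funext i
      apply Subtype.ext
      funext ω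
      change (a.1 + b.1) _ - (a.1 + b.1) _ = (a.1 _ - a.1 _) + (b.1 _ - b.1 _)
      simp only [Pi.add_apply]; ring
  map_smul' := by
    intro c a
    apply Prod.ext
    · rfl
    · funext i
      apply Subtype.ext
      funext ω
      change (c • a.1) _ - (c • a.1) _ = c * (a.1 _ - a.1 _)
      simp only [Pi.smul_apply, smul_eq_mul]; ring

/-- the permutation of cosets times numbers -/
def tau (y : ∀ i : Fin n, Yneg (sp M i)) (i : Fin n) : Equiv.Perm ((GG n ⧸ M) × ℚ) where
  toFun p := (sp M i p.1, p.2 + (y i).1 p.1)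
  invFun p := (sp M i p.1, p.2 + (y i).1 p.1)
  left_inv p := by
    apply Prod.ext
    · exact sp_sq M i p.1
    · change p.2 + (y i).1 p.1 + (y i).1 (sp M i p.1) = p.2
      rw [(y i).2 p.1]; ring
  right_inv p := by
    apply Prod.ext
    · exact sp_sq M i p.1
    · change p.2 + (y i).1 p.1 + (y i).1 (sp M i p.1) = p.2
      rw [(y i).2 p.1]; ring

theorem tau_sq (y : ∀ i : Fin n, Yneg (sp M i)) (i : Fin n) : tau M y i * tau M y i = 1 := by
  apply Equiv.ext
  intro p
  exact (tau M y i).left_inv p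

/-- the action -/
def Th (y : ∀ i : Fin n, Yneg (sp M i)) : GG n →* Equiv.Perm ((GG n ⧸ M) × ℚ) :=
  Monoid.CoprodI.lift fun i => h2 (tau M y i) (tau_sq M y i)

theorem Th_sg (y : ∀ i : Fin n, Yneg (sp M i)) (i : Fin n) : Th M y (sg i) = tau M y i := by
  unfold Th sg
  rw [Monoid.CoprodI.lift_of]
  change (tau M y i) ^ (1 : ZMod 2).val = tau M y i
  have : (1 : ZMod 2).val = 1 := by decide
  rw [this, pow_one]

theorem Th_form (y : ∀ i : Fin n, Yneg (sp M i)) (g : GG n) :
    ∀ ω t, Th M y g (ω, t) = (g • ω, t + (Th M y g (ω, 0)).2) := by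
  induction g using Monoid.CoprodI.induction_on with
  | one =>
    intro ω t
    rw [map_one]
    simp
  | of i a =>
    intro ω t
    rcases two_cases a with rfl | rfl
    · rw [map_one, map_one]
      simp
    · change Th M y (sg i) (ω, t) = (sg i • ω, t + (Th M y (sg i) (ω, 0)).2)
      rw [Th_sg]
      change (sp M i ω, t + (y i).1 ω) = (sg i • ω, t + (0 + (y i).1 ω))
      rw [zero_add]
      rfl
  | mul a b ha hb =>
    intro ω t
    rw [map_mul, Equiv.Perm.mul_apply, Equiv.Perm.mul_apply, hb ω t, ha, hb ω 0, ha (b • ω) (0 + _)]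
    apply Prod.ext
    · change a • b • ω = (a * b) • ω
      rw [mul_smul]
    · simp only
      ring

theorem R2_bij : Function.Bijective (R2 M) := by
  constructor
  · rw [← LinearMap.ker_eq_bot, LinearMap.ker_eq_bot']
    intro φ h
    have h1 : φ.1 1 = 0 := congrArg Prod.fst h
    have h2 : ∀ i, ∀ ω : GG n ⧸ M, φ.1 (sg i * ω.out) - φ.1 ω.out = 0 := fun i ω =>
      congrFun (congrArg Subtype.val (congrFun (congrArg Prod.snd h) i)) ω
    have h3 : ∀ i, ∀ g, φ.1 (sg i * g) = φ.1 g := by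
      intro i g
      obtain ⟨m, hm, hg⟩ := out_dec M g
      have h3 := EE_mem M φ (QuotientGroup.mk g : GG n ⧸ M).out m hm
      have h4 := EE_mem M φ (sg i * (QuotientGroup.mk g : GG n ⧸ M).out) m hm
      rw [mul_assoc, ← hg] at h4
      rw [← hg] at h3
      have h5 := h2 i (QuotientGroup.mk g)
      linarith
    have h4 : ∀ a g, φ.1 (a * g) = φ.1 g := by
      intro a
      induction a using Monoid.CoprodI.induction_on with
      | one => intro g; rw [one_mul]
      | of i a =>
        intro g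
        rcases two_cases a with rfl | rfl
        · rw [map_one, one_mul]
        · exact h3 i g
      | mul a b ha hb =>
        intro g
        rw [mul_assoc, ha, hb]
    apply Subtype.ext
    funext g
    have h5 := h4 g 1
    rw [mul_one, h1] at h5
    exact h5
  · rintro ⟨t0, y⟩
    let φ : GG n → ℚ := fun g => t0 + (Th M y g ((QuotientGroup.mk 1 : GG n ⧸ M), 0)).2
    have hφ : φ ∈ EE M := by
      intro g m hm
      change t0 + (Th M y (g * m) ((QuotientGroup.mk 1 : GG n ⧸ M), 0)).2 =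
        t0 + (Th M y g ((QuotientGroup.mk 1 : GG n ⧸ M), 0)).2 +
        (t0 + (Th M y m ((QuotientGroup.mk 1 : GG n ⧸ M), 0)).2) -
        (t0 + (Th M y 1 ((QuotientGroup.mk 1 : GG n ⧸ M), 0)).2)
      have hm1 : m • (QuotientGroup.mk 1 : GG n ⧸ M) = QuotientGroup.mk 1 := by
        rw [MulAction.Quotient.smul_mk, smul_eq_mul, mul_one, QuotientGroup.eq, mul_one]
        exact M.inv_mem hm
      rw [map_mul, Equiv.Perm.mul_apply, Th_form M y m, hm1, Th_form M y g, map_one]
      simp only [Equiv.Perm.coe_one, id_eq]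
      ring
    refine ⟨⟨φ, hφ⟩, ?_⟩
    apply Prod.ext
    · change t0 + (Th M y 1 ((QuotientGroup.mk 1 : GG n ⧸ M), 0)).2 = t0
      rw [map_one]
      simp
    · funext i
      apply Subtype.ext
      funext ω
      change (t0 + (Th M y (sg i * ω.out) ((QuotientGroup.mk 1 : GG n ⧸ M), 0)).2) -
        (t0 + (Th M y ω.out ((QuotientGroup.mk 1 : GG n ⧸ M), 0)).2) = (y i).1 ω
      have h1 : ω.out • (QuotientGroup.mk 1 : GG n ⧸ M) = ω := by
        rw [MulAction.Quotient.smul_mk, smul_eq_mul, mul_one]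
        exact Quotient.out_eq _
      rw [map_mul, Equiv.Perm.mul_apply, Th_sg]
      have h2 : (Th M y ω.out ((QuotientGroup.mk 1 : GG n ⧸ M), 0)).1 = ω := by
        rw [Th_form]
        exact h1
      change (t0 + ((Th M y ω.out ((QuotientGroup.mk 1 : GG n ⧸ M), 0)).2 +
        (y i).1 (Th M y ω.out ((QuotientGroup.mk 1 : GG n ⧸ M), 0)).1)) - _ = _
      rw [h2]; ring

end Main

theorem D2_proof : S_D2 := by
  classical
  intro n M hM hT
  have hfin : Finite (GG n ⧸ M) := by
    have : M.FiniteIndex := ⟨hM⟩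
    infer_instance
  have hft : Fintype (GG n ⧸ M) := Fintype.ofFinite _
  have hcard : Fintype.card (GG n ⧸ M) = M.index := by
    rw [← Nat.card_eq_fintype_card]; rfl
  have hY : ∀ i, 2 * Module.finrank ℚ (Yneg (sp M i)) = M.index := by
    intro i
    rw [finrank_Yneg (sp M i) (sp_sq M i) (sp_ne M hT i), hcard]
  let e1 := LinearEquiv.ofBijective (R1 M) (R1_bij M)
  let e2 := LinearEquiv.ofBijective (R2 M) (R2_bij M)
  have hfE : Module.Finite ℚ (EE M) := Module.Finite.equiv e2.symm
  have hfP : Module.Finite ℚ ((GG n ⧸ M → ℚ) × (Additive M →+ ℚ)) := Module.Finite.equiv e1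
  have hfH : Module.Finite ℚ (Additive M →+ ℚ) :=
    Module.Finite.of_surjective (LinearMap.snd ℚ (GG n ⧸ M → ℚ) (Additive M →+ ℚ)) LinearMap.snd_surjective
  have h1 : Module.finrank ℚ (EE M) = M.index + b1 M := by
    rw [e1.finrank_eq, Module.finrank_prod, Module.finrank_fintype_fun_eq_card, hcard]
    rfl
  have h2 : Module.finrank ℚ (EE M) = 1 + ∑ i : Fin n, Module.finrank ℚ (Yneg (sp M i)) := by
    rw [e2.finrank_eq, Module.finrank_prod, Module.finrank_self, Module.finrank_pi_fintype]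
  have h3 : 2 * ∑ i : Fin n, Module.finrank ℚ (Yneg (sp M i)) = n * M.index := by
    rw [Finset.mul_sum, Finset.sum_congr rfl (fun i _ => hY i)]
    simp
  have h4 : 2 * (M.index + b1 M) = 2 + n * M.index := by
    rw [← h1, h2, mul_add, h3]
  have h5 : 2 * ((M.index : ℤ) + (b1 M : ℤ)) = 2 + (n : ℤ) * (M.index : ℤ) := by exact_mod_cast h4
  linear_combination h5

end Pool.Agent.H718.QCD2
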